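import Mathlib
import Pool.Agent.Helper544.Tri

noncomputable section
open scoped Classical

namespace Pool.Agent.Results.MP_709e2b_gt.NoBound

/-- A geodesic multinet in the Euclidean plane (identified with the complex numbers): a finite
connected graph with straight edges carrying multiplicities, with a prescribed set `U` of
unbalanced vertices. `mult a b` is the multiplicity of the edge `ab`, and `0` means that `a` and `b`
are not joined by an edge. -/
structure Multinet where
  /-- all vertices -/
  V : Finset ℂ
  /-- the unbalanced (boundary) vertices -/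
  U : Finset ℂ
  /-- edge multiplicities -/
  mult : ℂ → ℂ → ℕ
  U_subset : U ⊆ V
  mult_symm : ∀ a b, mult a b = mult b a
  /-- edges join two distinct vertices -/
  edge_ends : ∀ a b, mult a b ≠ 0 → a ∈ V ∧ b ∈ V ∧ a ≠ b
  /-- two distinct edges meet only at common endpoints -/
  edges_meet : ∀ a b c d, mult a b ≠ 0 → mult c d ≠ 0 → s(a, b) ≠ s(c, d) →
    ∀ z ∈ segment ℝ a b, z ∈ segment ℝ c d → (z = a ∨ z = b) ∧ (z = c ∨ z = d)
  /-- no vertex lies inside an edge -/
  no_vertex_inside : ∀ a b, mult a b ≠ 0 → ∀ c ∈ V, c ∉ openSegment ℝ a b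
  connected : ∀ a ∈ V, ∀ b ∈ V, Relation.ReflTransGen (fun x y => mult x y ≠ 0) a b
  /-- the balancing condition at every vertex outside `U` -/
  balanced : ∀ v ∈ V, v ∉ U → ∑ w ∈ V, (mult v w : ℂ) * ((w - v) / (‖w - v‖ : ℂ)) = 0
  /-- balanced vertices are endpoints of at least three edges -/
  degree : ∀ v ∈ V, v ∉ U → 3 ≤ (V.filter (fun w => mult v w ≠ 0)).card
  /-- no edge joins two unbalanced vertices -/
  no_boundary_edge : ∀ a ∈ U, ∀ b ∈ U, mult a b = 0

open Pool.Agent.Helper544.Planar Pool.Agent.Helper544.Chain Pool.Agent.Helper544.Tri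

def dat : Data Unit where
  R := fun _ => 20
  w := fun _ => 4
  R_ge := fun _ => le_refl _
  glo := by
    simp only [Finset.univ_unique, Finset.sum_singleton, f]
    have h1 : ((20:ℝ) ^ 2 - 20 * 1 + 1 ^ 2) = 381 := by norm_num
    rw [h1]
    have h2 : (0:ℝ) < Real.sqrt 381 := Real.sqrt_pos.2 (by norm_num)
    have h3 : Real.sqrt 3 * Real.sqrt 381 ≤ 36 := by
      rw [← Real.sqrt_mul (by norm_num)]
      rw [Real.sqrt_le_left (by norm_num)]
      norm_num
    rw [← mul_div_assoc, le_div_iff₀ h2]
    push_cast
    nlinarith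
  ghi := by
    simp [f]; norm_num

theorem dat_inj : Function.Injective dat.R := fun _ _ _ => rfl

theorem exists_net (M : ℕ) : ∃ G : Multinet, G.U.card = 3 ∧ (∀ a b, G.mult a b ≤ 4) ∧
    M < (G.V \ G.U).card := by
  obtain ⟨r, hr, heq⟩ := exists_chain dat (M + 1)
  have hinj : Function.Injective r := (chain_strict dat hr heq).injective
  let D := drawing dat r hr hinj dat_inj
  have hW : ∀ x y, D.W x y ≤ 4 := by
    rintro (⟨i, j⟩ | ⟨l, k⟩) (⟨i', j'⟩ | ⟨l', k'⟩)
    · change (if j ≠ j' ∧ nb i i' then 1 else 0) ≤ 4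
      split_ifs <;> norm_num
    · change (if k' ≠ j then 4 else 0) ≤ 4
      split_ifs <;> norm_num
    · change (if k ≠ j' then 4 else 0) ≤ 4
      split_ifs <;> norm_num
    · change 0 ≤ 4
      norm_num
  let U : Finset ℂ := Finset.univ.image (fun k : Fin 3 => D.pos (Sum.inr ((), k)))
  have hUinj : Function.Injective (fun k : Fin 3 => D.pos (Sum.inr ((), k))) := by
    intro k k' h
    have := D.inj h
    have := Sum.inr.inj this
    rw [Prod.mk.injEq] at this
    exact this.2
  have hlayer : ∀ i j, D.pos (Sum.inl (i, j)) ∉ U := by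
    intro i j h
    simp only [U, Finset.mem_image, Finset.mem_univ, true_and] at h
    obtain ⟨k, hk⟩ := h
    have := D.inj hk
    cases this
  have hbal : ∀ v ∈ D.V, v ∉ U → ∑ w ∈ D.V, (D.m v w : ℂ) * uv v w = 0 := by
    intro v hv hvU
    by_cases hvr : v ∈ Set.range D.pos
    · obtain ⟨x, rfl⟩ := hvr
      rw [D.imb_pos x]
      rcases x with ⟨i, j⟩ | ⟨l, k⟩
      · exact balanced dat hr heq i j
      · exact absurd (Finset.mem_image.2 ⟨k, Finset.mem_univ _, rfl⟩) hvU
    · exact D.imb_cross hv hvr
  have hdeg : ∀ v ∈ D.V, v ∉ U → 3 ≤ (D.V.filter (fun w => D.m v w ≠ 0)).card := by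
    intro v hv hvU
    by_cases hvr : v ∈ Set.range D.pos
    · obtain ⟨x, rfl⟩ := hvr
      rcases x with ⟨i, j⟩ | ⟨l, k⟩
      · exact le_trans (degree_layer dat (fun _ => by norm_num [dat]) () i j) (D.degree_pos _)
      · exact absurd (Finset.mem_image.2 ⟨k, Finset.mem_univ _, rfl⟩) hvU
    · exact le_trans (by norm_num) (D.degree_cross hv hvr)
  have hnoU : ∀ a ∈ U, ∀ b ∈ U, D.m a b = 0 := by
    intro a ha b hb
    simp only [U, Finset.mem_image, Finset.mem_univ, true_and] at ha hb
    obtain ⟨k1, rfl⟩ := ha
    obtain ⟨k2, rfl⟩ := hb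
    by_contra hne
    obtain ⟨x, y, hxy⟩ := D.exists_Nx hne
    have hne' := Drawing.Nx.ne D hxy
    have hseg := Drawing.Nx.seg D hxy
    obtain ⟨k, α, β, hC⟩ := exists_Cn dat r hxy.1
    have hr' : ∀ i, 0 < r i := fun i => by linarith [(hr i).1]
    have on1 : ∀ c ∈ segment ℝ (posf dat r x) (posf dat r y), On k α β c := by
      intro c hc
      rcases hC with h1 | h1
      · have := Cn_ends dat hr' h1
        exact On_of_ends this.1 this.2 hc
      · have := Cn_ends dat hr' h1
        rw [segment_symm] at hc
        exact On_of_ends this.1 this.2 hc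
    have o1 := on1 _ hseg.1
    have o2 := on1 _ hseg.2
    have e1 : k1 = k := On_bdry dat (l := ()) o1
    have e2 : k2 = k := On_bdry dat (l := ()) o2
    exact hne' (by rw [e1, e2])
  let G : Multinet :=
    { V := D.V
      U := U
      mult := D.m
      U_subset := by
        intro v hv
        simp only [U, Finset.mem_image, Finset.mem_univ, true_and] at hv
        obtain ⟨k, rfl⟩ := hv
        exact D.pos_mem _
      mult_symm := D.m_symm
      edge_ends := fun a b h => D.edge_mem h
      edges_meet := by
        intro a b c d hab hcd hne z hz hz'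
        refine D.planar hab hcd ?_ hz hz'
        rintro (⟨h1, h2⟩ | ⟨h1, h2⟩)
        · exact hne (by rw [h1, h2])
        · exact hne (by rw [h1, h2]; exact Sym2.eq_swap)
      no_vertex_inside := fun a b h c hc => D.no_interior h hc
      connected := D.connected (conn_aux dat (fun _ => by norm_num [dat]) () (by omega))
      balanced := hbal
      degree := hdeg
      no_boundary_edge := hnoU }
  refine ⟨G, ?_, D.m_le hW, ?_⟩
  · change U.card = 3
    simp only [U]
    rw [Finset.card_image_of_injective _ hUinj]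
    simp
  · change M < (D.V \ U).card
    have hsub : (Finset.univ : Finset (Fin (M + 1))).image (fun i => D.pos (Sum.inl (i, 0))) ⊆ D.V \ U := by
      intro v hv
      simp only [Finset.mem_image, Finset.mem_univ, true_and] at hv
      obtain ⟨i, rfl⟩ := hv
      rw [Finset.mem_sdiff]
      exact ⟨D.pos_mem _, hlayer i 0⟩
    have hc := Finset.card_le_card hsub
    rw [Finset.card_image_of_injective] at hc
    · simp at hc
      omega
    · intro i i' h
      have := D.inj h
      have := Sum.inl.inj this
      rw [Prod.mk.injEq] at this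
      exact this.1

/-- There is no function `f` bounding the number of balanced vertices of all planar geodesic
multinets with exactly three unbalanced vertices and all multiplicities at most `n` by `f n`. -/
theorem result : ¬ ∃ f : ℕ → ℕ, ∀ n : ℕ, 1 ≤ n → ∀ G : Multinet, G.U.card = 3 →
    (∀ a b, G.mult a b ≤ n) → (G.V \ G.U).card ≤ f n := by
  rintro ⟨f, hf⟩
  obtain ⟨G, h1, h2, h3⟩ := exists_net (f 4)
  have := hf 4 (by norm_num) G h1 h2
  omega

end Pool.Agent.Results.MP_709e2b_gt.NoBound
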